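import Mathlib
import Pool.Agent.Helper60.GP.Plus3
import Pool.Agent.Helper38.GP.Count
import Pool.Agent.Helper38.GP.Up
import Pool.Agent.Helper69.GP.Near
import Pool.Agent.Helper99.GPC.Minus
import Pool.Agent.Helper22.RZ.Final

/-!
# The product inequality for the extreme values of the circle error: choice of the parameters
-/

open Filter MeasureTheory Set
open scoped Real Topology

namespace Pool.Agent.Helper60.GP

open Pool.Agent.Helper22.GC Pool.Agent.Helper53.OM Pool.Agent.Helper22.RZ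

noncomputable section

/-- upper bound for the local average -/
lemma Av_le' {h : ℝ} (hh : 0 < h) {f : ℝ → ℝ} (hf : Continuous f) {t m : ℝ}
    (hm : ∀ x, t - h ≤ x → x ≤ t + h → f x ≤ m) : Av h f t ≤ m := by
  have h1 := le_Av hh (f := fun x => -f x) hf.neg (t := t) (m := -m)
    (fun x h1 h2 => neg_le_neg (hm x h1 h2))
  have h2 : Av h (fun x => -f x) t = -Av h f t := by
    unfold Av
    rw [← intervalIntegral.integral_neg]
    refine intervalIntegral.integral_congr fun u _ => ?_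
    show _ = _
    ring
  rw [h2] at h1
  linarith

/-- the elementary facts about `y = log Y` which are used -/
structure Large (cr D c₁ V₀ C : ℝ) (y : ℝ) : Prop where
  one : 1000 ≤ y
  l1 : 2 ≤ Real.log y
  l2 : Real.log y ≤ (1 / 3000) * y ^ (3 / 8 : ℝ)
  l3 : Real.log y ≤ D * cr * y ^ (1 / 8 : ℝ)
  d : D ≤ y ^ (1 / 24 : ℝ)
  v0 : max V₀ 2 ≤ y ^ (1 / 2 : ℝ)
  e1 : 2048 * y ^ 3 ≤ Real.exp (y / 24)
  b : 2 * C < cr * y ^ (1 / 4 : ℝ)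

lemma eventually_large {cr D c₁ V₀ C : ℝ} (hcr : 0 < cr) (hD : 0 < D) :
    ∀ᶠ y in atTop, Large cr D c₁ V₀ C y := by
  have t1 : Tendsto Real.log atTop atTop := Real.tendsto_log_atTop
  have o : ∀ (r ε : ℝ), 0 < r → 0 < ε → ∀ᶠ y : ℝ in atTop, Real.log y ≤ ε * y ^ r := by
    intro r ε hr hε
    have h := (isLittleO_log_rpow_atTop hr).bound hε
    filter_upwards [h, eventually_ge_atTop (1 : ℝ)] with y hy hy1
    rw [Real.norm_of_nonneg (Real.log_nonneg hy1),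
      Real.norm_of_nonneg (Real.rpow_nonneg (by linarith) _)] at hy
    exact hy
  have p : ∀ (r c : ℝ), 0 < r → ∀ᶠ y : ℝ in atTop, c < y ^ r := fun r c hr =>
    (tendsto_rpow_atTop hr).eventually_gt_atTop c
  have ex : ∀ᶠ y : ℝ in atTop, 2048 * y ^ 3 ≤ Real.exp (y / 24) := by
    have h1 : Tendsto (fun x : ℝ => Real.exp x / x ^ 3) atTop atTop := Real.tendsto_exp_div_pow_atTop 3
    have h2 : Tendsto (fun y : ℝ => y / 24) atTop atTop :=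
      tendsto_id.atTop_div_const (by norm_num)
    have h3 := (h1.comp h2).eventually_ge_atTop (2048 * 24 ^ 3)
    filter_upwards [h3, eventually_gt_atTop (0 : ℝ)] with y hy hy0
    have h4 : 0 < (y / 24) ^ 3 := by positivity
    simp only [Function.comp] at hy
    rw [le_div_iff₀ h4] at hy
    calc 2048 * y ^ 3 = 2048 * 24 ^ 3 * (y / 24) ^ 3 := by ring
      _ ≤ _ := hy
  filter_upwards [eventually_ge_atTop (1000 : ℝ), t1.eventually_ge_atTop (2 : ℝ),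
    o (3 / 8) (1 / 3000) (by norm_num) (by norm_num), o (1 / 8) (D * cr) (by norm_num) (by positivity),
    p (1 / 24) D (by norm_num), p (1 / 2) (max V₀ 2) (by norm_num), ex,
    p (1 / 4) (2 * C / cr) (by norm_num)] with y h1 h2 h3 h4 h5 h6 h7 h8
  refine ⟨h1, h2, h3, h4, h5.le, h6.le, h7, ?_⟩
  rw [div_lt_iff₀ hcr] at h8
  linarith

/-- the level `V` and its set -/
lemma level {cr D c₁ V₀ C y B : ℝ} (hcr : 0 < cr) (hD : 0 < D) (hc₁ : 0 < c₁)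
    (hy : Large cr D c₁ V₀ C y)
    (hcount : ∀ V : ℝ, V₀ ≤ V →
      ∃ M : Finset ℕ, M ⊆ Finset.Icc 1 ⌊V ^ 2⌋₊ ∧ (∀ K ∈ M, Squarefree K) ∧
      (∀ K ∈ M, V ^ (-(3 / 4) : ℝ) ≤ gr K * (K : ℝ) ^ (-(3 / 4) : ℝ)) ∧
      c₁ * V * (Real.log V) ^ (kap - 1) ≤ M.card)
    (hB1 : cr * (y ^ (1 / 4 : ℝ) * (Real.log y) ^ (3 / 4 * (kap - 1))) ≤ B)
    (hB2 : B ≤ y ^ (1 / 3 : ℝ)) :
    ∃ W : ℝ, W = D * B * (Real.log y) ^ (-(kap - 1)) ∧ y ^ (1 / 8 : ℝ) ≤ W ∧ W ≤ y ^ (3 / 8 : ℝ) ∧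
    ∃ M : Finset ℕ, M ⊆ Finset.Icc 1 ⌊(W ^ 4) ^ 2⌋₊ ∧ (∀ K ∈ M, Squarefree K) ∧
      (∀ K ∈ M, W ^ (-3 : ℝ) ≤ gr K * (K : ℝ) ^ (-(3 / 4) : ℝ)) ∧
      c₁ / 2 * D * B ≤ ∑ K ∈ M, (gr K : ℝ) * (K : ℝ) ^ (-(3 / 4) : ℝ) := by
  obtain ⟨h1, h2, h3, h4, h5, h6, h7, h8⟩ := hy
  have hy0 : 0 < y := by linarith
  have hy1 : 1 ≤ y := by linarith
  have hkap0 := kap_ge
  have hkap1 := kap_le'
  set l := Real.log y with hl
  have hl0 : 0 < l := by linarith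
  have hl1 : 1 ≤ l := by linarith
  have hB0 : 0 < B := by
    refine lt_of_lt_of_le ?_ hB1
    have := Real.rpow_pos_of_pos hy0 (1 / 4)
    have := Real.rpow_pos_of_pos hl0 (3 / 4 * (kap - 1))
    positivity
  refine ⟨D * B * l ^ (-(kap - 1)), rfl, ?_, ?_, ?_⟩
  · -- lower bound of `W`
    have e1 : l ^ (3 / 4 * (kap - 1)) * l ^ (-(kap - 1)) = l ^ (-(kap - 1) / 4) := by
      rw [← Real.rpow_add hl0]; congr 1; ring
    have e2 : l⁻¹ ≤ l ^ (-(kap - 1) / 4) := by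
      rw [← Real.rpow_neg_one]
      exact Real.rpow_le_rpow_of_exponent_le hl1 (by linarith)
    have e3 : D * (cr * y ^ (1 / 4 : ℝ)) * l⁻¹ ≤ D * B * l ^ (-(kap - 1)) := by
      calc D * (cr * y ^ (1 / 4 : ℝ)) * l⁻¹ ≤ D * (cr * y ^ (1 / 4 : ℝ)) * l ^ (-(kap - 1) / 4) :=
            mul_le_mul_of_nonneg_left e2 (by positivity)
        _ = D * (cr * (y ^ (1 / 4 : ℝ) * l ^ (3 / 4 * (kap - 1)))) * l ^ (-(kap - 1)) := by
            rw [← e1]; ring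
        _ ≤ _ := by
            apply mul_le_mul_of_nonneg_right _ (Real.rpow_nonneg hl0.le _)
            exact mul_le_mul_of_nonneg_left hB1 hD.le
    refine le_trans ?_ e3
    rw [← div_eq_mul_inv, le_div_iff₀ hl0]
    have e4 : y ^ (1 / 4 : ℝ) = y ^ (1 / 8 : ℝ) * y ^ (1 / 8 : ℝ) := by
      rw [← Real.rpow_add hy0]; norm_num
    calc y ^ (1 / 8 : ℝ) * l ≤ y ^ (1 / 8 : ℝ) * (D * cr * y ^ (1 / 8 : ℝ)) :=
          mul_le_mul_of_nonneg_left h4 (by positivity)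
      _ = _ := by rw [e4]; ring
  · -- upper bound
    have e1 : l ^ (-(kap - 1)) ≤ 1 := Real.rpow_le_one_of_one_le_of_nonpos hl1 (by linarith)
    calc D * B * l ^ (-(kap - 1)) ≤ D * B * 1 := mul_le_mul_of_nonneg_left e1 (by positivity)
      _ = D * B := mul_one _
      _ ≤ y ^ (1 / 24 : ℝ) * y ^ (1 / 3 : ℝ) :=
          mul_le_mul h5 hB2 hB0.le (by positivity)
      _ = y ^ (3 / 8 : ℝ) := by
          rw [← Real.rpow_add hy0]; norm_num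
  · set W := D * B * l ^ (-(kap - 1)) with hW
    have hW8 : y ^ (1 / 8 : ℝ) ≤ W := by
      have e1 : l ^ (3 / 4 * (kap - 1)) * l ^ (-(kap - 1)) = l ^ (-(kap - 1) / 4) := by
        rw [← Real.rpow_add hl0]; congr 1; ring
      have e2 : l⁻¹ ≤ l ^ (-(kap - 1) / 4) := by
        rw [← Real.rpow_neg_one]
        exact Real.rpow_le_rpow_of_exponent_le hl1 (by linarith)
      have e3 : D * (cr * y ^ (1 / 4 : ℝ)) * l⁻¹ ≤ D * B * l ^ (-(kap - 1)) := by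
        calc D * (cr * y ^ (1 / 4 : ℝ)) * l⁻¹ ≤ D * (cr * y ^ (1 / 4 : ℝ)) * l ^ (-(kap - 1) / 4) :=
              mul_le_mul_of_nonneg_left e2 (by positivity)
          _ = D * (cr * (y ^ (1 / 4 : ℝ) * l ^ (3 / 4 * (kap - 1)))) * l ^ (-(kap - 1)) := by
              rw [← e1]; ring
          _ ≤ _ := by
              apply mul_le_mul_of_nonneg_right _ (Real.rpow_nonneg hl0.le _)
              exact mul_le_mul_of_nonneg_left hB1 hD.le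
      refine le_trans ?_ e3
      rw [← div_eq_mul_inv, le_div_iff₀ hl0]
      have e4 : y ^ (1 / 4 : ℝ) = y ^ (1 / 8 : ℝ) * y ^ (1 / 8 : ℝ) := by
        rw [← Real.rpow_add hy0]; norm_num
      calc y ^ (1 / 8 : ℝ) * l ≤ y ^ (1 / 8 : ℝ) * (D * cr * y ^ (1 / 8 : ℝ)) :=
            mul_le_mul_of_nonneg_left h4 (by positivity)
        _ = _ := by rw [e4]; ring
    have hW0 : 0 < W := by positivity
    -- `V = W ^ 4`
    have hVy : y ^ (1 / 2 : ℝ) ≤ W ^ 4 := by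
      calc y ^ (1 / 2 : ℝ) = (y ^ (1 / 8 : ℝ)) ^ 4 := by
            rw [← Real.rpow_natCast, ← Real.rpow_mul hy0.le]; norm_num
        _ ≤ W ^ 4 := pow_le_pow_left₀ (by positivity) hW8 4
    have hVV : V₀ ≤ W ^ 4 := ((le_max_left _ _).trans h6).trans hVy
    obtain ⟨M, hM1, hM2, hM3, hM4⟩ := hcount (W ^ 4) hVV
    have hV34 : (W ^ 4) ^ (-(3 / 4) : ℝ) = W ^ (-3 : ℝ) := by
      rw [← Real.rpow_natCast, ← Real.rpow_mul hW0.le]; norm_num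
    rw [hV34] at hM3
    refine ⟨M, hM1, hM2, hM3, ?_⟩
    have hlogV : l / 2 ≤ Real.log (W ^ 4) := by
      have := Real.log_le_log (by positivity) hVy
      rw [Real.log_rpow hy0] at this
      linarith
    have g1 : (l / 2) ^ (kap - 1) ≤ (Real.log (W ^ 4)) ^ (kap - 1) :=
      Real.rpow_le_rpow (by linarith) hlogV (by linarith)
    have g2 : (1 / 2 : ℝ) * l ^ (kap - 1) ≤ (l / 2) ^ (kap - 1) := by
      have e : l / 2 = (1 / 2) * l := by ring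
      rw [e, Real.mul_rpow (by norm_num) hl0.le]
      apply mul_le_mul_of_nonneg_right _ (Real.rpow_nonneg hl0.le _)
      calc (1 / 2 : ℝ) = (1 / 2 : ℝ) ^ (1 : ℝ) := (Real.rpow_one _).symm
        _ ≤ _ := Real.rpow_le_rpow_of_exponent_ge (by norm_num) (by norm_num) (by linarith)
    have g3 : c₁ * W ^ 4 * (1 / 2 * l ^ (kap - 1)) ≤ M.card :=
      (mul_le_mul_of_nonneg_left (g2.trans g1) (by positivity)).trans hM4
    have g4 : (M.card : ℝ) * W ^ (-3 : ℝ) ≤ ∑ K ∈ M, (gr K : ℝ) * (K : ℝ) ^ (-(3 / 4) : ℝ) := by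
      rw [← nsmul_eq_mul]
      exact Finset.card_nsmul_le_sum _ _ _ fun K hK => hM3 K hK
    refine le_trans ?_ g4
    have hWm : W ^ (-3 : ℝ) = (W ^ 3)⁻¹ := by
      rw [Real.rpow_neg hW0.le]
      congr 1
      rw [show (3 : ℝ) = ((3 : ℕ) : ℝ) by norm_num, Real.rpow_natCast]
    have g5 : c₁ * W ^ 4 * (1 / 2 * l ^ (kap - 1)) * W ^ (-3 : ℝ) = c₁ / 2 * D * B := by
      have e1 : l ^ (-(kap - 1)) * l ^ (kap - 1) = 1 := by
        rw [← Real.rpow_add hl0]; simp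
      rw [hWm]
      have e2 : W ^ 4 * (W ^ 3)⁻¹ = W := by field_simp
      calc c₁ * W ^ 4 * (1 / 2 * l ^ (kap - 1)) * (W ^ 3)⁻¹
          = c₁ / 2 * (W ^ 4 * (W ^ 3)⁻¹) * l ^ (kap - 1) := by ring
        _ = c₁ / 2 * (D * B) * (l ^ (-(kap - 1)) * l ^ (kap - 1)) := by rw [e2, hW]; ring
        _ = _ := by rw [e1]; ring
    rw [← g5]
    exact mul_le_mul_of_nonneg_right g3 (Real.rpow_nonneg hW0.le _)

/-- the number of independent frequencies -/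
lemma tau_facts {cr D c₁ V₀ C y : ℝ} (hy : Large cr D c₁ V₀ C y) {τ : ℕ}
    (hτ : τ = ⌊y / (24 * Real.log y)⌋₊) :
    1 ≤ τ ∧ (τ : ℝ) * Real.log y ≤ y / 24 ∧ y / (48 * Real.log y) ≤ τ ∧ (τ : ℝ) ≤ y / 48 := by
  obtain ⟨h1, h2, h3, h4, h5, h6, h7, h8⟩ := hy
  have hy0 : 0 < y := by linarith
  set l := Real.log y with hl
  have hl0 : 0 < l := by linarith
  have h9 : y ^ (3 / 8 : ℝ) ≤ y := by
    calc y ^ (3 / 8 : ℝ) ≤ y ^ (1 : ℝ) :=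
          Real.rpow_le_rpow_of_exponent_le (by linarith) (by norm_num)
      _ = y := Real.rpow_one y
  have h10 : 2 ≤ y / (24 * l) := by
    rw [le_div_iff₀ (by positivity)]
    linarith
  have h11 : (τ : ℝ) ≤ y / (24 * l) := by
    rw [hτ]; exact Nat.floor_le (by positivity)
  have h12 : y / (24 * l) < (τ : ℝ) + 1 := by
    rw [hτ]; exact Nat.lt_floor_add_one _
  have h13 : y / (48 * l) = y / (24 * l) / 2 := by
    rw [div_div]; congr 1; ring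
  have h14 : (1 : ℝ) ≤ τ := by linarith
  have h15 : (τ : ℝ) * l ≤ y / 24 := by
    calc (τ : ℝ) * l ≤ y / (24 * l) * l := mul_le_mul_of_nonneg_right h11 hl0.le
      _ = y / 24 := by field_simp
  refine ⟨by exact_mod_cast h14, h15, ?_, ?_⟩
  · rw [h13]; linarith
  · nlinarith

lemma pow_facts {cr D c₁ V₀ C y : ℝ} (hy : Large cr D c₁ V₀ C y) {τ : ℕ}
    (hτ : τ = ⌊y / (24 * Real.log y)⌋₊) {W : ℝ} (hW1 : 1 ≤ W) (hW : W ≤ y ^ (3 / 8 : ℝ)) {L : ℕ}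
    (hL : L = ⌈W ^ 4⌉₊) :
    (L : ℝ) ^ 2 ≤ 4 * y ^ 3 ∧ (32 * (L : ℝ) ^ 2 * τ) ^ τ ≤ Real.exp (5 * y / 24) := by
  obtain ⟨t1, t2, t3, t4⟩ := tau_facts hy hτ
  obtain ⟨h1, h2, h3, h4, h5, h6, h7, h8⟩ := hy
  have hy0 : 0 < y := by linarith
  have hW4 : 1 ≤ W ^ 4 := one_le_pow₀ hW1
  have hL1 : (L : ℝ) ≤ 2 * W ^ 4 := by
    have := (Nat.ceil_lt_add_one (show 0 ≤ W ^ 4 by linarith)).le
    rw [← hL] at this
    linarith
  have hW8 : (W ^ 4) ^ 2 ≤ y ^ 3 := by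
    calc (W ^ 4) ^ 2 = W ^ 8 := by ring
      _ ≤ (y ^ (3 / 8 : ℝ)) ^ 8 := pow_le_pow_left₀ (by linarith) hW 8
      _ = y ^ (3 : ℝ) := by
        rw [← Real.rpow_natCast, ← Real.rpow_mul hy0.le]; norm_num
      _ = y ^ 3 := by
        rw [show (3 : ℝ) = ((3 : ℕ) : ℝ) by norm_num, Real.rpow_natCast]
  have hL2 : (L : ℝ) ^ 2 ≤ 4 * y ^ 3 := by
    calc (L : ℝ) ^ 2 ≤ (2 * W ^ 4) ^ 2 := pow_le_pow_left₀ (Nat.cast_nonneg _) hL1 2
      _ = 4 * (W ^ 4) ^ 2 := by ring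
      _ ≤ _ := by linarith
  refine ⟨hL2, ?_⟩
  have hb : 32 * (L : ℝ) ^ 2 * τ ≤ y ^ 5 := by
    calc 32 * (L : ℝ) ^ 2 * τ ≤ 32 * (4 * y ^ 3) * (y / 48) := by gcongr
      _ = (8 / 3) * y ^ 4 := by ring
      _ ≤ y * y ^ 4 := mul_le_mul_of_nonneg_right (by linarith) (by positivity)
      _ = y ^ 5 := by ring
  calc (32 * (L : ℝ) ^ 2 * τ) ^ τ ≤ (y ^ 5) ^ τ := pow_le_pow_left₀ (by positivity) hb τ
    _ = Real.exp ((τ : ℝ) * Real.log y * 5) := by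
      nth_rewrite 1 [← Real.exp_log hy0]
      rw [← Real.exp_nat_mul, ← Real.exp_nat_mul]
      congr 1
      push_cast
      ring
    _ ≤ _ := Real.exp_le_exp.mpr (by linarith)

/-- the error is small -/
lemma err_facts {cr D c₁ V₀ C y : ℝ} (hy : Large cr D c₁ V₀ C y) {τ : ℕ}
    (hτ : τ = ⌊y / (24 * Real.log y)⌋₊) {W : ℝ} (hW1 : 1 ≤ W) (hW : W ≤ y ^ (3 / 8 : ℝ)) :
    90 * W ^ 2 * (4 / (τ : ℝ) ^ 2 + Real.exp (-y)) ≤ (τ : ℝ) * (W ^ 3)⁻¹ / 252 := by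
  obtain ⟨t1, t2, t3, t4⟩ := tau_facts hy hτ
  obtain ⟨h1, h2, h3, h4, h5, h6, h7, h8⟩ := hy
  have hy0 : 0 < y := by linarith
  set l := Real.log y with hl
  have hl0 : 0 < l := by linarith
  have ht0 : (0 : ℝ) < τ := by exact_mod_cast t1
  have hW0 : 0 < W := by linarith
  -- `exp (-y) ≤ 4 / τ ^ 2`
  have e1 : Real.exp (-y) ≤ 4 / (τ : ℝ) ^ 2 := by
    rw [Real.exp_neg, ← one_div, div_le_div_iff₀ (Real.exp_pos _) (by positivity)]
    have := Real.quadratic_le_exp_of_nonneg hy0.le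
    have h9 : (τ : ℝ) ^ 2 ≤ (y / 48) ^ 2 := pow_le_pow_left₀ ht0.le t4 2
    nlinarith
  -- `181440 W ^ 5 ≤ τ ^ 3`
  have e2 : 181440 * W ^ 5 ≤ (τ : ℝ) ^ 3 := by
    have g1 : (y / (48 * l)) ^ 3 ≤ (τ : ℝ) ^ 3 := pow_le_pow_left₀ (by positivity) t3 3
    refine le_trans ?_ g1
    set p := y ^ (3 / 8 : ℝ) with hp
    have hp0 : 0 < p := by positivity
    have g2 : W ^ 5 ≤ p ^ 5 := pow_le_pow_left₀ hW0.le hW 5
    have g3 : l ^ 3 ≤ (1 / 3000 * p) ^ 3 := pow_le_pow_left₀ hl0.le h3 3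
    have g4 : p ^ 8 = y ^ 3 := by
      rw [hp, ← Real.rpow_natCast, ← Real.rpow_mul hy0.le,
        show ((3 / 8 : ℝ) * ((8 : ℕ) : ℝ)) = ((3 : ℕ) : ℝ) by norm_num, Real.rpow_natCast]
    rw [div_pow, le_div_iff₀ (by positivity), ← g4]
    calc 181440 * W ^ 5 * (48 * l) ^ 3 = 181440 * 48 ^ 3 * (W ^ 5 * l ^ 3) := by ring
      _ ≤ 181440 * 48 ^ 3 * (p ^ 5 * (1 / 3000 * p) ^ 3) := by gcongr
      _ = 181440 * 48 ^ 3 / 3000 ^ 3 * p ^ 8 := by ring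
      _ ≤ 1 * p ^ 8 := mul_le_mul_of_nonneg_right (by norm_num) (by positivity)
      _ = p ^ 8 := one_mul _
  have e3 : 90 * W ^ 2 * (4 / (τ : ℝ) ^ 2 + Real.exp (-y)) ≤ 90 * W ^ 2 * (8 / (τ : ℝ) ^ 2) := by
    apply mul_le_mul_of_nonneg_left _ (by positivity)
    have : (8 : ℝ) / (τ : ℝ) ^ 2 = 4 / (τ : ℝ) ^ 2 + 4 / (τ : ℝ) ^ 2 := by ring
    rw [this]
    linarith
  refine e3.trans ?_
  rw [← mul_div_assoc, div_le_div_iff₀ (by positivity) (by norm_num), ← div_eq_mul_inv,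
    div_mul_eq_mul_div, le_div_iff₀ (by positivity)]
  nlinarith

/-- the upper bound for the smoothed function -/
lemma gs_upper {Cg : ℝ}
    (hup : ∀ (δ β X Y : ℝ), 0 < δ → δ ≤ 1 / 2 → 2 ≤ X → δ * Y ≤ 1 →
      0 ≤ β → (∀ R, X ≤ R → R ≤ Y → Pe R ≤ β * √R) →
      ∀ R, X ≤ R → R + 1 ≤ Y → gI δ R ≤ 2 * β + Cg)
    {X Y A : ℝ} (hX : 2 ≤ X) (hY : 16 ≤ Y) (hA : 0 ≤ A)
    (hPe : ∀ R, X ≤ R → R ≤ X * Y → Pe R ≤ A * √R) {N : ℕ} (hN : 1 ≤ N) {δ : ℝ}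
    (hδ : δ = 1 / (X * Y + 13 * √N)) :
    0 < δ ∧ 4 * π * δ * √N ≤ 1 ∧
      ∀ z, X * Y / 8 ≤ z → z ≤ 3 * (X * Y / 8) → Gs (bK δ N) z ≤ 2 * A + Cg := by
  have hN1 : (1 : ℝ) ≤ N := by exact_mod_cast hN
  have hsN : 1 ≤ √(N : ℝ) := by rw [Real.one_le_sqrt]; exact hN1
  have hXY : 16 * X ≤ X * Y := by nlinarith
  have hδ0 : 0 < δ := by rw [hδ]; positivity
  have hδ2 : δ ≤ 1 / 2 := by
    rw [hδ]
    apply one_div_le_one_div_of_le (by norm_num)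
    nlinarith
  have hδY : δ * (X * Y) ≤ 1 := by
    rw [hδ, one_div_mul_eq_div, div_le_one (by positivity)]
    nlinarith
  have hδN : 4 * π * δ * √N ≤ 1 := by
    have h1 : 4 * π * δ * √N = 4 * π * √N / (X * Y + 13 * √N) := by rw [hδ]; ring
    rw [h1, div_le_one (by positivity)]
    have := Real.pi_lt_d2
    nlinarith
  refine ⟨hδ0, hδN, ?_⟩
  intro z hz1 hz2
  have h1 := hup δ A X (X * Y) hδ0 hδ2 hX hδY hA hPe
  have hh : 1 / (4 * √(N : ℝ)) ≤ 1 / 4 := by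
    apply one_div_le_one_div_of_le (by norm_num)
    linarith
  rw [← Av_eq_Gs hδ0 hN]
  refine Av_le' (by positivity) (continuous_gI hδ0) fun x hx1 hx2 => h1 x ?_ ?_
  · linarith
  · linarith

lemma base_facts {L τ : ℕ} (hL : 1 ≤ L) (hτ : 1 ≤ τ) :
    1 ≤ 32 * (L : ℝ) ^ 2 * τ ∧ 1 ≤ (L : ℝ) ^ 2 * τ ∧ 1 ≤ (L : ℝ) ^ 2 ∧ (L : ℝ) ≤ (L : ℝ) ^ 2 := by
  have h1 : (1 : ℝ) ≤ L := by exact_mod_cast hL
  have h2 : (1 : ℝ) ≤ τ := by exact_mod_cast hτ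
  have h3 : 1 ≤ (L : ℝ) ^ 2 := one_le_pow₀ h1
  have h4 : 1 ≤ (L : ℝ) ^ 2 * τ := by nlinarith
  refine ⟨by linarith, h4, h3, by nlinarith⟩

/-- the parameter `s₀` -/
lemma s_facts {τ s₀ : ℕ} (hτ : 1 ≤ τ) (hs₀ : s₀ = Nat.log 2 τ) :
    2 ^ s₀ ≤ τ ∧ (1 / 4 : ℝ) ^ s₀ ≤ 4 / (τ : ℝ) ^ 2 := by
  have ht0 : (0 : ℝ) < τ := by exact_mod_cast hτ
  have hs1 : 2 ^ s₀ ≤ τ := by rw [hs₀]; exact Nat.pow_log_le_self 2 (by omega)
  have hs2 : τ < 2 ^ (s₀ + 1) := by rw [hs₀]; exact Nat.lt_pow_succ_log_self (by norm_num) τ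
  refine ⟨hs1, ?_⟩
  have h9 : (τ : ℝ) ≤ 2 * 2 ^ s₀ := by
    have : (τ : ℝ) ≤ ((2 ^ (s₀ + 1) : ℕ) : ℝ) := by exact_mod_cast hs2.le
    push_cast at this
    rw [pow_succ] at this
    linarith
  have h10 : (τ : ℝ) ^ 2 ≤ 4 * 4 ^ s₀ := by
    calc (τ : ℝ) ^ 2 ≤ (2 * 2 ^ s₀) ^ 2 := pow_le_pow_left₀ ht0.le h9 2
      _ = 4 * 4 ^ s₀ := by
        rw [mul_pow, ← pow_mul, mul_comm s₀ 2, pow_mul]; norm_num
  rw [div_pow, one_pow, div_le_div_iff₀ (by positivity) (by positivity)]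
  linarith

lemma norm_facts {τ s₀ L : ℕ} (hL : 1 ≤ L) (hτ : 1 ≤ τ) (hs : 2 ^ s₀ ≤ τ) {n Q : ℝ} (hn0 : 0 ≤ n)
    (hn : n ≤ L) (hQ : (32 * (L : ℝ) ^ 2 * τ) ^ τ ≤ Q) :
    (2 * (τ : ℝ) * n + 1) ^ (2 ^ s₀) ≤ 2 * Q := by
  obtain ⟨b1, b2, b3, b4⟩ := base_facts hL hτ
  have ht0 : (0 : ℝ) ≤ τ := Nat.cast_nonneg _
  have h9 : 2 * (τ : ℝ) * n + 1 ≤ 32 * (L : ℝ) ^ 2 * τ := by
    have h12 : 2 * (τ : ℝ) * n ≤ 2 * τ * (L : ℝ) ^ 2 :=
      mul_le_mul_of_nonneg_left (hn.trans b4) (by positivity)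
    linarith
  have hQ1 : 1 ≤ Q := (one_le_pow₀ b1).trans hQ
  calc (2 * (τ : ℝ) * n + 1) ^ (2 ^ s₀) ≤ (32 * (L : ℝ) ^ 2 * τ) ^ (2 ^ s₀) :=
        pow_le_pow_left₀ (by positivity) h9 _
    _ ≤ (32 * (L : ℝ) ^ 2 * τ) ^ τ := pow_le_pow_right₀ b1 hs
    _ ≤ Q := hQ
    _ ≤ 2 * Q := by linarith

/-- the tail is tiny -/
lemma tail_facts {cr D c₁ V₀ C y : ℝ} (hy : Large cr D c₁ V₀ C y) {τ : ℕ}
    (hτ : τ = ⌊y / (24 * Real.log y)⌋₊) {X Y Q G : ℝ} {L : ℕ} (hX : 2 ≤ X) (hY : Y = Real.exp y)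
    (hL : (L : ℝ) ^ 2 ≤ 4 * y ^ 3) (hG0 : 0 < G) (hG : G ≤ Real.exp (5 * y / 24))
    (hQ : Q = 64 * (L : ℝ) ^ 2 * X * G) :
    4 * (L : ℝ) ^ 2 * G ≤ Y ∧ 2 ^ τ * (Q / (X * Y / 8)) ^ 2 ≤ Real.exp (-y) := by
  obtain ⟨t1, t2, t3, t4⟩ := tau_facts hy hτ
  obtain ⟨h1, h2, h3, h4, h5, h6, h7, h8⟩ := hy
  have hy0 : 0 < y := by linarith
  have hy3 : 0 < y ^ 3 := by positivity
  have hX0 : 0 < X := by linarith
  have hY0 : 0 < Y := by rw [hY]; exact Real.exp_pos _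
  have hE : Real.exp (5 * y / 24) * Real.exp (y / 24) = Real.exp (y / 4) := by
    rw [← Real.exp_add]; congr 1; ring
  have hLG : 512 * (L : ℝ) ^ 2 * G ≤ Real.exp (y / 4) := by
    calc 512 * (L : ℝ) ^ 2 * G ≤ (2048 * y ^ 3) * Real.exp (5 * y / 24) := by
          apply mul_le_mul _ hG hG0.le (by positivity)
          linarith
      _ ≤ Real.exp (y / 24) * Real.exp (5 * y / 24) :=
          mul_le_mul_of_nonneg_right h7 (Real.exp_pos _).le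
      _ = Real.exp (y / 4) := by rw [mul_comm, hE]
  constructor
  · have h9 : 0 ≤ (L : ℝ) ^ 2 * G := by positivity
    have h10 : Real.exp (y / 4) ≤ Y := by rw [hY]; exact Real.exp_le_exp.mpr (by linarith)
    linarith
  · have k1 : Q / (X * Y / 8) ≤ Real.exp (-(3 / 4) * y) := by
      have k2 : Q / (X * Y / 8) = 512 * (L : ℝ) ^ 2 * G / Y := by
        rw [hQ]; field_simp; ring
      rw [k2, div_le_iff₀ hY0]
      have k3 : Real.exp (-(3 / 4) * y) * Y = Real.exp (y / 4) := by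
        rw [hY, ← Real.exp_add]; congr 1; ring
      rw [k3]
      exact hLG
    have k4 : (2 : ℝ) ^ τ ≤ Real.exp (y / 2) := by
      have k5 : (2 : ℝ) ≤ Real.exp 1 := by linarith [Real.exp_one_gt_d9]
      calc (2 : ℝ) ^ τ ≤ (Real.exp 1) ^ τ := pow_le_pow_left₀ (by norm_num) k5 τ
        _ = Real.exp τ := by rw [← Real.exp_nat_mul, mul_one]
        _ ≤ _ := Real.exp_le_exp.mpr (by linarith)
    have hQ0 : 0 ≤ Q / (X * Y / 8) := by rw [hQ]; positivity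
    calc 2 ^ τ * (Q / (X * Y / 8)) ^ 2 ≤ Real.exp (y / 2) * (Real.exp (-(3 / 4) * y)) ^ 2 := by
          apply mul_le_mul k4 _ (by positivity) (Real.exp_pos _).le
          exact pow_le_pow_left₀ hQ0 k1 2
      _ = Real.exp (-y) := by
          rw [← Real.exp_nat_mul, ← Real.exp_add]; congr 1; push_cast; ring

/-- the final comparison -/
lemma end_facts {A B D W l y t Cg : ℝ} (hD : 0 < D) (hl : 0 < l) (hy : 0 < y) (hB : 0 < B)
    (hW : W = D * B * l ^ (-(kap - 1))) (hA : t * (W ^ 3)⁻¹ / 1512 ≤ A) (ht : y / (48 * l) ≤ t) :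
    min Cg (1 / (72576 * D ^ 3)) * y * l ^ (3 * kap - 4) ≤ A * B ^ 3 := by
  have hl30 : 0 < l ^ (3 * kap - 4) := Real.rpow_pos_of_pos hl _
  have h18 : (W ^ 3)⁻¹ * B ^ 3 = (D ^ 3)⁻¹ * l ^ (3 * (kap - 1)) := by
    have k1 : W ^ 3 = D ^ 3 * B ^ 3 * (l ^ (3 * (kap - 1)))⁻¹ := by
      rw [hW, mul_pow, mul_pow, ← Real.rpow_neg hl.le, ← Real.rpow_natCast (l ^ _) 3,
        ← Real.rpow_mul hl.le]
      congr 2
      push_cast
      ring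
    have k2 : 0 < l ^ (3 * (kap - 1)) := Real.rpow_pos_of_pos hl _
    rw [k1]
    field_simp
  have h19 : l ^ (3 * (kap - 1)) = l * l ^ (3 * kap - 4) := by
    nth_rewrite 2 [← Real.rpow_one l]
    rw [← Real.rpow_add hl]
    congr 1
    ring
  have h20 : y / 48 ≤ t * l := by
    have := mul_le_mul_of_nonneg_right ht hl.le
    calc y / 48 = y / (48 * l) * l := by field_simp
      _ ≤ _ := this
  calc min Cg (1 / (72576 * D ^ 3)) * y * l ^ (3 * kap - 4)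
      ≤ 1 / (72576 * D ^ 3) * y * l ^ (3 * kap - 4) := by
        apply mul_le_mul_of_nonneg_right _ hl30.le
        exact mul_le_mul_of_nonneg_right (min_le_right _ _) hy.le
    _ = 1 / 1512 * (D ^ 3)⁻¹ * (y / 48) * l ^ (3 * kap - 4) := by
        field_simp
        norm_num
    _ ≤ 1 / 1512 * (D ^ 3)⁻¹ * (t * l) * l ^ (3 * kap - 4) := by gcongr
    _ = t / 1512 * ((W ^ 3)⁻¹ * B ^ 3) := by rw [h18, h19]; ring
    _ = t * (W ^ 3)⁻¹ / 1512 * B ^ 3 := by ring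
    _ ≤ A * B ^ 3 := mul_le_mul_of_nonneg_right hA (by positivity)

/-- the product inequality -/
theorem product_main : ∃ c : ℝ, 0 < c ∧ ∃ Y₀ : ℝ, ∀ X Y A B : ℝ, 2 ≤ X → Y₀ ≤ Y →
    (∀ R, X ≤ R → R ≤ X * Y → -(B * √R) ≤ Pe R ∧ Pe R ≤ A * √R) →
    c * Real.log Y * (Real.log (Real.log Y)) ^ (3 * kap - 4) ≤ A * B ^ 3 := by
  obtain ⟨cr, hcr, Yr, hriesz⟩ := final_uniform_riesz
  obtain ⟨c, C, hc, hC, hminus⟩ := minus_core
  obtain ⟨c₁, hc₁, V₀, hcount⟩ := count_sqf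
  obtain ⟨Cg, hCg, hup⟩ := gI_upper
  obtain ⟨M₀, hbig⟩ := exists_big Cg
  set D : ℝ := 4 / (c * c₁) with hD
  have hD0 : 0 < D := by positivity
  have hkap0 := kap_ge
  have hkap1 := kap_le'
  have t1 : Tendsto Real.log atTop atTop := Real.tendsto_log_atTop
  have e1 := t1.eventually (eventually_large (c₁ := c₁) (V₀ := V₀) (C := C) hcr hD0)
  obtain ⟨Y₀, hY₀⟩ := eventually_atTop.1 (e1.and (eventually_ge_atTop (max (max Yr 16) (4 * M₀))))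
  refine ⟨min Cg (1 / (72576 * D ^ 3)), by positivity, Y₀, ?_⟩
  intro X Y A B hX hY hAB
  obtain ⟨f1, f2⟩ := hY₀ Y hY
  have hY16 : 16 ≤ Y := (le_max_right _ _).trans ((le_max_left _ _).trans f2)
  have hYr : Yr ≤ Y := (le_max_left _ _).trans ((le_max_left _ _).trans f2)
  have hYM : 4 * M₀ ≤ Y := (le_max_right _ _).trans f2
  have hX0 : 0 < X := by linarith
  have hY0 : 0 < Y := by linarith
  have hXY : 16 * X ≤ X * Y := by nlinarith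
  set y := Real.log Y with hy
  have hYexp : Y = Real.exp y := (Real.exp_log hY0).symm
  have hL := f1
  obtain ⟨h1, h2, h3, h4, h5, h6, h7, h8⟩ := f1
  have hy0 : 0 < y := by linarith
  set l := Real.log y with hl
  have hl0 : 0 < l := by linarith
  have hl1 : 1 ≤ l := by linarith
  have hl3 : l ^ (3 * kap - 4) ≤ 1 := Real.rpow_le_one_of_one_le_of_nonpos hl1 (by linarith)
  have hl30 : 0 < l ^ (3 * kap - 4) := Real.rpow_pos_of_pos hl0 _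
  -- `B` is large
  have hBge : cr * (y ^ (1 / 4 : ℝ) * l ^ (3 / 4 * (kap - 1))) ≤ B := by
    obtain ⟨R, hR1, hR2, hR3⟩ := hriesz X Y hX hYr
    have hR4 := (hAB R hR1 hR2).1
    have hsR : 0 < √R := Real.sqrt_pos.mpr (by linarith)
    have h9 : -(B * √R) ≤ -(cr * √R * gn Y) := hR4.trans hR3
    have h10 : cr * gn Y * √R ≤ B * √R := by linarith
    exact le_of_mul_le_mul_right h10 hsR
  have hl2 : 1 ≤ l ^ (3 / 4 * (kap - 1)) := Real.one_le_rpow hl1 (by linarith)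
  have hB2C : 2 * C < B := by
    refine lt_of_lt_of_le h8 (le_trans ?_ hBge)
    have : 0 < y ^ (1 / 4 : ℝ) := Real.rpow_pos_of_pos hy0 _
    apply mul_le_mul_of_nonneg_left _ hcr.le
    exact le_mul_of_one_le_right this.le hl2
  have hB0 : 0 < B := by linarith
  -- `A` is not small
  have hAge : Cg < A := by
    obtain ⟨R, hR1, hR2, hR3⟩ := hbig (max X M₀) (le_max_right _ _)
    have hR5 : X ≤ R := (le_max_left _ _).trans hR1
    have hR6 : R ≤ X * Y := by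
      refine hR2.trans ?_
      rcases le_total X M₀ with h | h
      · rw [max_eq_right h]
        exact hYM.trans (le_mul_of_one_le_left hY0.le (by linarith))
      · rw [max_eq_left h]; linarith
    have hR4 := (hAB R hR5 hR6).2
    have hsR : 0 < √R := Real.sqrt_pos.mpr (by linarith)
    exact lt_of_mul_lt_mul_right (hR3.trans_le hR4) hsR.le
  have hA0 : 0 < A := by linarith
  rcases le_total (y ^ (1 / 3 : ℝ)) B with hBy | hBy
  · -- trivial case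
    have hB3 : y ≤ B ^ 3 := by
      calc y = (y ^ (1 / 3 : ℝ)) ^ 3 := by
            rw [← Real.rpow_natCast, ← Real.rpow_mul hy0.le]; norm_num
        _ ≤ B ^ 3 := pow_le_pow_left₀ (by positivity) hBy 3
    calc min Cg (1 / (72576 * D ^ 3)) * y * l ^ (3 * kap - 4) ≤ Cg * y * 1 :=
          mul_le_mul (mul_le_mul_of_nonneg_right (min_le_left _ _) hy0.le) hl3 hl30.le (by positivity)
      _ = Cg * y := mul_one _
      _ ≤ A * B ^ 3 := mul_le_mul hAge.le hB3 hy0.le hA0.le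
  -- the main case
  obtain ⟨W, hWdef, hW8, hW38, M, hM1, hM2, hM3, hM4⟩ :=
    level hcr hD0 hc₁ hL hcount hBge hBy
  have hW1 : 1 ≤ W := (Real.one_le_rpow (by linarith) (by norm_num)).trans hW8
  have hW0 : 0 < W := by linarith
  have hW4 : 1 ≤ W ^ 4 := one_le_pow₀ hW1
  obtain ⟨τ, hτ⟩ : ∃ τ : ℕ, τ = ⌊y / (24 * Real.log y)⌋₊ := ⟨_, rfl⟩
  obtain ⟨L, hLd⟩ : ∃ L : ℕ, L = ⌈W ^ 4⌉₊ := ⟨_, rfl⟩
  obtain ⟨N, hNd⟩ : ∃ N : ℕ, N = ⌊(W ^ 4) ^ 2⌋₊ := ⟨_, rfl⟩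
  rw [← hNd] at hM1
  obtain ⟨g1, g2, g3, g4⟩ := tau_facts hL hτ
  obtain ⟨g5, g6⟩ := pow_facts hL hτ hW1 hW38 hLd
  have g7 := err_facts hL hτ hW1 hW38
  have hWL : W ^ 4 ≤ L := by rw [hLd]; exact Nat.le_ceil _
  have hN1 : 1 ≤ N := by
    rw [hNd]
    apply Nat.le_floor
    push_cast
    exact one_le_pow₀ hW4
  have hNW : (N : ℝ) ≤ (W ^ 4) ^ 2 := by rw [hNd]; exact Nat.floor_le (by positivity)
  have hsN : √(N : ℝ) ≤ W ^ 4 := Real.sqrt_le_iff.mpr ⟨by positivity, hNW⟩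
  have hN4 : (N : ℝ) ^ (1 / 4 : ℝ) ≤ W ^ 2 := by
    calc (N : ℝ) ^ (1 / 4 : ℝ) ≤ ((W ^ 4) ^ 2) ^ (1 / 4 : ℝ) :=
          Real.rpow_le_rpow (Nat.cast_nonneg _) hNW (by norm_num)
      _ = W ^ 2 := by
        rw [show (W ^ 4) ^ 2 = (W ^ 2) ^ 4 by ring, ← Real.rpow_natCast (W ^ 2) 4,
          ← Real.rpow_mul (by positivity)]
        norm_num
  have ht0 : (0 : ℝ) < τ := by exact_mod_cast g1
  have ht1 : (1 : ℝ) ≤ τ := by exact_mod_cast g1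
  have hL1 : (1 : ℝ) ≤ L := hW4.trans hWL
  have hW2 : 16 ≤ W ^ 4 := by
    have h9 : (2 : ℝ) ≤ y ^ (1 / 2 : ℝ) := (le_max_right _ _).trans h6
    have h10 : y ^ (1 / 2 : ℝ) ≤ W ^ 4 := by
      calc y ^ (1 / 2 : ℝ) = (y ^ (1 / 8 : ℝ)) ^ 4 := by
            rw [← Real.rpow_natCast, ← Real.rpow_mul hy0.le]; norm_num
        _ ≤ W ^ 4 := pow_le_pow_left₀ (by positivity) hW8 4
    have h11 : (16 : ℝ) ≤ y ^ (1 / 2 : ℝ) := by
      rw [← Real.sqrt_eq_rpow]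
      exact Real.le_sqrt_of_sq_le (by linarith)
    linarith
  have hL2 : 2 ≤ L := by
    have : (2 : ℝ) ≤ L := by linarith
    exact_mod_cast this
  set G : ℝ := (32 * (L : ℝ) ^ 2 * τ) ^ τ with hG
  obtain ⟨hbase, hbase2, hL21, hLL⟩ := base_facts (show 1 ≤ L by omega) g1
  have hG1 : 1 ≤ G := one_le_pow₀ hbase
  obtain ⟨Q, hQ⟩ : ∃ Q : ℝ, Q = 64 * (L : ℝ) ^ 2 * X * G := ⟨_, rfl⟩
  have hGQ : G ≤ Q := by
    rw [hQ]
    have h9 : 1 ≤ 64 * (L : ℝ) ^ 2 * X := by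
      have : 1 * 1 ≤ (64 * (L : ℝ) ^ 2) * X :=
        mul_le_mul (by linarith) (by linarith) zero_le_one (by positivity)
      rwa [one_mul] at this
    exact le_mul_of_one_le_left (by linarith) h9
  have hQ1 : 1 ≤ Q := hG1.trans hGQ
  obtain ⟨T, hTM, hTS, hTmax⟩ := exists_max hQ1 M
  obtain ⟨hLG, h10⟩ := tail_facts hL hτ hX hYexp g5 (by linarith) g6 hQ
  -- many independent frequencies
  have hTτ : τ < T.card := by
    by_contra hcon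
    push Not at hcon
    obtain ⟨R, hR1, hR2, hR3⟩ := hminus N L τ M T X Q hN1 hL2 g1 hM1 hcon hX (le_of_eq hQ.symm) hTmax
    have hR4 : R ≤ X * Y := by
      refine hR2.trans ?_
      calc 4 * X * G * (L : ℝ) ^ 2 = X * (4 * (L : ℝ) ^ 2 * G) := by ring
        _ ≤ X * Y := mul_le_mul_of_nonneg_left hLG hX0.le
    have hR5 := (hAB R hR1 hR4).1
    have hsR : 0 < √R := Real.sqrt_pos.mpr (by linarith)
    have h10 : (N : ℝ) ^ (1 / 4 : ℝ) / √L ≤ 1 := by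
      have hsL : W ^ 2 ≤ √(L : ℝ) := by
        apply Real.le_sqrt_of_sq_le
        calc (W ^ 2) ^ 2 = W ^ 4 := by ring
          _ ≤ (L : ℝ) := hWL
      rw [div_le_one (lt_of_lt_of_le (by positivity) hsL)]
      exact hN4.trans hsL
    have h11 : c * (c₁ / 2 * D * B) = 2 * B := by rw [hD]; field_simp; ring
    have h12 : c * (c₁ / 2 * D * B) ≤
        c * ∑ K ∈ M, (gr K : ℝ) * (K : ℝ) ^ (-(3 / 4) : ℝ) := mul_le_mul_of_nonneg_left hM4 hc.le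
    have h13 : C * (N : ℝ) ^ (1 / 4 : ℝ) / √L ≤ C := by
      rw [mul_div_assoc]
      exact mul_le_of_le_one_right hC.le h10
    have h14 : -(B * √R) ≤ √R * (C + C * (N : ℝ) ^ (1 / 4 : ℝ) / √L
        - c * ∑ K ∈ M, (gr K : ℝ) * (K : ℝ) ^ (-(3 / 4) : ℝ)) := hR5.trans hR3
    have h15 : √R * (-B) ≤ √R * (C + C * (N : ℝ) ^ (1 / 4 : ℝ) / √L
        - c * ∑ K ∈ M, (gr K : ℝ) * (K : ℝ) ^ (-(3 / 4) : ℝ)) := by linarith
    have h16 := le_of_mul_le_mul_left h15 hsR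
    linarith
  obtain ⟨T', hT'1, hT'2⟩ := Finset.exists_subset_card_eq hTτ.le
  obtain ⟨δ, hδ⟩ : ∃ δ : ℝ, δ = 1 / (X * Y + 13 * √N) := ⟨_, rfl⟩
  obtain ⟨hδ0, hδN, hGs⟩ := gs_upper hup hX hY16 hA0.le (fun R h1 h2 => (hAB R h1 h2).2) hN1 hδ
  obtain ⟨hbs, hbt⟩ := summable_bK δ hN1
  have hT'N : T' ⊆ Finset.Icc 1 N := (hT'1.trans hTM).trans hM1
  -- the parameter `s₀`
  obtain ⟨s₀, hs₀⟩ : ∃ s₀ : ℕ, s₀ = Nat.log 2 τ := ⟨_, rfl⟩
  obtain ⟨hs1, hs3⟩ := s_facts g1 hs₀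
  have hs4 : (2 * (T'.card : ℝ) * √N + 1) ^ (2 ^ s₀) ≤ 2 * Q := by
    rw [hT'2]
    exact norm_facts (by omega) g1 hs1 (Real.sqrt_nonneg _) (hsN.trans hWL) hGQ
  have h9 := plus_core (bK_nonneg δ N) (by simp [bK, aK_zero]) hbs hbt
    (fun q hq => hM2 q (hTM (hT'1 hq))) hT'N hQ1 (H := X * Y / 8) (by positivity)
    (hTS.mono hT'1) hs4 (β := 2 * A + Cg) (by positivity) hGs
  rw [hT'2] at h9
  have h11 : (0 : ℝ) ≤ 2 ^ τ * (Q / (X * Y / 8)) ^ 2 := by positivity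
  have h12 : Real.exp (-y) ≤ 1 := by
    rw [Real.exp_le_one_iff]; linarith
  -- the main term
  have hWm : W ^ (-3 : ℝ) = (W ^ 3)⁻¹ := by
    rw [Real.rpow_neg hW0.le]
    congr 1
    rw [show (3 : ℝ) = ((3 : ℕ) : ℝ) by norm_num, Real.rpow_natCast]
  have h13 : (τ : ℝ) * (W ^ 3)⁻¹ / 5 ≤ ∑ K ∈ T', bK δ N K := by
    have k1 : (T'.card : ℝ) * ((W ^ 3)⁻¹ / 5) ≤ ∑ K ∈ T', bK δ N K := by
      rw [← nsmul_eq_mul]
      refine Finset.card_nsmul_le_sum _ _ _ fun K hK => ?_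
      have k2 := Finset.mem_Icc.mp (hT'N hK)
      refine le_trans ?_ (bK_lower hδ0 k2.1 k2.2 hδN)
      have k3 := hM3 K (hTM (hT'1 hK))
      rw [hWm] at k3
      linarith
    rw [hT'2] at k1
    linarith
  have hWi : 0 < (W ^ 3)⁻¹ := by positivity
  have h14 : (τ : ℝ) * (W ^ 3)⁻¹ / 126 ≤ 1 / (8 * π) * ∑ K ∈ T', bK δ N K := by
    have k1 : (5 : ℝ) / 126 ≤ 1 / (8 * π) := by
      rw [div_le_div_iff₀ (by norm_num) (by positivity)]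
      have := Real.pi_lt_d2
      linarith
    have k2 : 0 ≤ ∑ K ∈ T', bK δ N K := Finset.sum_nonneg fun K _ => bK_nonneg δ N K
    calc (τ : ℝ) * (W ^ 3)⁻¹ / 126 = 5 / 126 * ((τ : ℝ) * (W ^ 3)⁻¹ / 5) := by ring
      _ ≤ 5 / 126 * ∑ K ∈ T', bK δ N K := mul_le_mul_of_nonneg_left h13 (by norm_num)
      _ ≤ _ := mul_le_mul_of_nonneg_right k1 k2
  have h15 : 90 * (N : ℝ) ^ (1 / 4 : ℝ) * ((1 / 4) ^ s₀ + 2 ^ τ * (Q / (X * Y / 8)) ^ 2) ≤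
      (τ : ℝ) * (W ^ 3)⁻¹ / 252 := by
    refine le_trans ?_ g7
    apply mul_le_mul _ (by linarith) (by positivity) (by positivity)
    linarith
  have h16 : (2 * A + Cg) * (1 + 2 ^ τ * (Q / (X * Y / 8)) ^ 2) ≤ 6 * A := by
    calc (2 * A + Cg) * (1 + 2 ^ τ * (Q / (X * Y / 8)) ^ 2) ≤ (3 * A) * 2 := by
          apply mul_le_mul (by linarith) (by linarith) (by positivity) (by positivity)
      _ = 6 * A := by ring
  have h17 : (τ : ℝ) * (W ^ 3)⁻¹ / 1512 ≤ A := by linarith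
  exact end_facts hD0 hl0 hy0 hB0 hWdef h17 g3

end

end Pool.Agent.Helper60.GP
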